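import Mathlib
import Pool.Agent.H43R2.Cplx.EFinal2

/-!
# The number of blocks of digits of `e` is often larger than `(3/2 - ε) n`

For `e`, and for every real number of irrationality exponent two, in every base: for every
`c < 3 / 2` there are infinitely many `n` such that more than `c n` different blocks of `n`
consecutive digits occur.
-/

set_option autoImplicit false

namespace Pool.Agent.Results.MP_7e9a3a_nt.BlocksOfELimsup

/-- The block complexity: the number of distinct blocks of `n` consecutive digits in the base `b`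
expansion of the fractional part of `ξ`. -/
noncomputable def blockCount (b : ℕ) [NeZero b] (ξ : ℝ) (n : ℕ) : ℕ :=
  (Set.range fun i : ℕ => fun k : Fin n => Real.digits (Int.fract ξ) b (i + k)).ncard

/-- `ξ` is irrational and has irrationality exponent two -/
def ExponentTwo (ξ : ℝ) : Prop :=
  ∀ ε : ℝ, 0 < ε → ∃ c : ℝ, 0 < c ∧ ∀ q : ℕ, 1 ≤ q → ∀ m : ℤ,
    c * (q : ℝ) ^ (-(2 + ε)) ≤ |ξ - m / q|

/-- For every base `b ≥ 2` and for `ξ = e`, or `ξ` any real number of irrationality exponent two: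
`limsup p(n, ξ, b) / n ≥ 3/2`, where `p(n, ξ, b)` is the number of distinct blocks of `n` digits in
the base `b` expansion of `ξ`. -/
theorem result (ξ : ℝ) (h : ξ = Real.exp 1 ∨ ExponentTwo ξ) (b : ℕ) [NeZero b] (hb : 2 ≤ b)
    (c : ℝ) (hc : c < 3 / 2) :
    ∃ᶠ n : ℕ in Filter.atTop, c * n < blockCount b ξ n := by
  have h2 : Pool.Agent.H43R2.Cplx.Exp2 ξ := by
    rcases h with rfl | h
    · exact Pool.Agent.H43R2.Cplx.exp2_e
    · intro ε hε
      obtain ⟨c, hc, H⟩ := h ε hε
      refine ⟨c, hc, fun q hq m => ?_⟩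
      have h3 := H q hq m
      have hq0 : (0 : ℝ) < q := by exact_mod_cast hq
      have e1 : |(q : ℝ) * ξ - m| = q * |ξ - m / q| := by
        rw [← abs_of_pos hq0, ← abs_mul, abs_of_pos hq0, mul_sub, mul_div_cancel₀ _ hq0.ne']
      have e2 : (q : ℝ) ^ (1 + ε) * q = (q : ℝ) ^ (2 + ε) := by
        rw [← Real.rpow_add_one hq0.ne']
        congr 1
        ring
      have e3 : (q : ℝ) ^ (2 + ε) * (q : ℝ) ^ (-(2 + ε)) = 1 := by
        rw [← Real.rpow_add hq0, add_neg_cancel, Real.rpow_zero]
      rw [e1, ← mul_assoc, e2]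
      calc c = (q : ℝ) ^ (2 + ε) * (c * (q : ℝ) ^ (-(2 + ε))) := by
            rw [mul_left_comm, e3, mul_one]
        _ ≤ (q : ℝ) ^ (2 + ε) * |ξ - m / q| :=
            mul_le_mul_of_nonneg_left h3 (Real.rpow_nonneg hq0.le _)
  exact Pool.Agent.H43R2.Cplx.limsup_of_exp2 h2 b hb hc

end Pool.Agent.Results.MP_7e9a3a_nt.BlocksOfELimsup
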