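import Mathlib
import Pool.Agent.TH629.ExpAlg2

/-!
# Algebraic relations between the digits of `e`, `√2` and other numbers `α e^k`

Let `D_i(X) = a_1 X + ⋯ + a_L X^L`, where the `a_j` are the digits of the number `x_i` in base `b`.
Counting coefficients, there are always relations `h_0 M_0 + ⋯ + h_m M_m ≡ 0 mod X^(L+1)` between
`m + 1` given monomials `M_j` in `D_1, …, D_n`, with polynomials `h_j`, not all zero, of degree at
most `L / (m + 1) + 1`. For numbers `x_i = α_i e ^ (k_i)`, `α_i` algebraic, such a relation never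
has coefficients of degree `o(L)`.
-/

set_option autoImplicit false

namespace Pool.Agent.Results.MP_7e9a3a_nt.JointDigitsWithAlgebraic

open Finset Polynomial Module

/-- the `i`-th digit of `x` after the point in base `b` -/
noncomputable def digit (b : ℕ) (x : ℝ) (i : ℕ) : ℤ := ⌊x * (b : ℝ) ^ i⌋ % (b : ℤ)

/-- the polynomial `a_1 X + a_2 X^2 + ⋯ + a_L X^L`, where `a_i` is the `i`-th digit of `x` after
the point in base `b` -/
noncomputable def digitPoly (b : ℕ) (x : ℝ) (L : ℕ) : ℚ[X] :=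
  ∑ i ∈ Icc 1 L, C (digit b x i : ℚ) * X ^ i

/-- there are polynomials `h_0, …, h_m` over `ℚ` of degree `≤ k`, not all zero, such that
`∑_j h_j ∏_i D_i ^ (E j i)` is divisible by `X^(L+1)`, where `D_i = a_1 X + ⋯ + a_L X^L` is formed
with the base `b` digits of `x_i` -/
def MonRelation (b : ℕ) {n m : ℕ} (x : Fin n → ℝ) (E : Fin (m + 1) → Fin n → ℕ) (L k : ℕ) : Prop :=
  ∃ h : Fin (m + 1) → ℚ[X], h ≠ 0 ∧ (∀ j, (h j).natDegree ≤ k) ∧
    X ^ (L + 1) ∣ ∑ j, h j * ∏ i, digitPoly b (x i) L ^ E j i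

/-- the least `k` for which there is such a relation between the monomials with exponents `E j`
in the digit polynomials of `x_1, …, x_n` -/
noncomputable def monComplexity (b : ℕ) {n m : ℕ} (x : Fin n → ℝ) (E : Fin (m + 1) → Fin n → ℕ)
    (L : ℕ) : ℕ := sInf {k | MonRelation b x E L k}

/-- the exponents of the monomials `Y₁ ^ u * Y₂ ^ v * Y₃ ^ w` with `u ≤ r` and `v, w ≤ 1` -/
def smallExponents (r : ℕ) (t : Fin (4 * r + 3 + 1)) : Fin 3 → ℕ :=
  ![(t : ℕ) / 4, (t : ℕ) / 2 % 2, (t : ℕ) % 2]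

/-- Let `K` be a real number field of degree `d` and `x_i = α_i e ^ (k_i)` with `α_i ∈ K`. Let
`E_0, …, E_m` be the exponent vectors of monomials, closed under passing to smaller vectors, such
that the values of these monomials at `(x_1, …, x_n)` are linearly independent over `ℚ` and have
degree at most `R` in `e`. Then the complexity of the first `L` digits of `x_1, …, x_n` with respect
to these monomials lies between `(1 / (d (d R + 1)) - o(1)) L` and `(1 / (m + 1) + o(1)) L`,
uniformly in the base.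

In particular for `e`, `√2` and the golden ratio, and all the monomials of degree at most `r` in the
first variable and at most one in the two others, it is at least `(1 / (4 (4 r + 1)) - o(1)) L`. -/
theorem result :
    (∀ (K : IntermediateField ℚ ℝ) [FiniteDimensional ℚ K] (n m : ℕ) (α : Fin n → K)
      (k : Fin n → ℕ) (E : Fin (m + 1) → Fin n → ℕ),
      (∀ j, ∀ a : Fin n → ℕ, a ≤ E j → ∃ j', E j' = a) →
      ∀ R : ℕ, (∀ j, ∑ i, k i * E j i ≤ R) →
      LinearIndependent ℚ (fun j => ∏ i, ((α i : ℝ) * Real.exp (k i)) ^ E j i) →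
      ∀ ε : ℝ, 0 < ε → ∃ L₀ : ℕ, ∀ L : ℕ, L₀ ≤ L → ∀ b : ℕ, 2 ≤ b →
        (1 / ((finrank ℚ K : ℝ) * (finrank ℚ K * R + 1)) - ε) * L <
          monComplexity b (fun i => (α i : ℝ) * Real.exp (k i)) E L ∧
        (monComplexity b (fun i => (α i : ℝ) * Real.exp (k i)) E L : ℝ) <
          (1 / ((m : ℝ) + 1) + ε) * L) ∧
    (∀ (r : ℕ) (ε : ℝ), 0 < ε → ∃ L₀ : ℕ, ∀ L : ℕ, L₀ ≤ L → ∀ b : ℕ, 2 ≤ b →
      (1 / (4 * (4 * (r : ℝ) + 1)) - ε) * L <
        monComplexity b ![Real.exp 1, √2, Real.goldenRatio] (smallExponents r) L) :=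
  ⟨fun K _ _ _ α k E hdown R hR hli ε hε =>
    Pool.Agent.TH629.ExpAlg.main K α k E hdown R hR hli ε hε,
    fun r ε hε => Pool.Agent.TH629.ExpAlg.main_example r ε hε⟩

end Pool.Agent.Results.MP_7e9a3a_nt.JointDigitsWithAlgebraic
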