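import Pool.Agent.Q39.SS.Poly

/-!
# The positions of the nonzero digits of `π` and `1 / π`, of `e` and `1 / e`, …

Let `x > 0` be irrational (for instance `π` or `e`), `D ≥ 1` an integer, `b ≥ 2` a base, and let
`A`, `B` be the sets of the positions of the nonzero digits of `x` and of `D / x` (for instance
`1 / π`); the position `0` is the integer part. No hypothesis is assumed.

1. The sumset `A + B` is dense: for every `ε > 0` there is `C` with
   `(1 - ε) N ≤ (|(A + B) ∩ [1, N]| + 1) (log_b ((|A ∩ [0, N]| + 1) (|B ∩ [0, N]| + 1) / N) + C)`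
   for all `N ≥ 1`. So if `|A ∩ [0, N]| |B ∩ [0, N]| = O(N)`, then `A + B` has positive density up
   to `N`.
2. For all `K > 0`, `0 < δ ≤ 1` there are `c > 0` and `N₀` such that for all `N ≥ N₀` and all sets
   `F`, `G` with `|F|, |G|, |F + G| ≤ K N ^ (1 - δ)` the number of the elements of `A ∩ [0, N]`
   outside `F` plus that of the elements of `B ∩ [0, N]` outside `G` is at least
   `c N ^ min(δ, 1/2) / log N`.
3. The same as 1 for positive real numbers `x_1, …, x_s` and every polynomial `P` with natural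
   coefficients such that `P(x_1, …, x_s)` is a natural number `D` and some `x_i` which occurs in
   `P` is irrational; the bound is in terms of the value of `P` at the numbers of nonzero digits.

Proof. Let `r n` be the coefficients of `P(f_1, …, f_s)`, where the `f_i` are the power series of
the digits of the `x_i`. Since `∑ r n b ^ (-n) = D`, the remainders
`c_n = ∑_{j ≥ 1} r (n + j) b ^ (-j)` are positive integers, and `c_n = b c_{n-1} - r n`. So
`log_b c` grows by one at every `n` with `r n = 0` and is never negative, whence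
`N ≤ ∑ log_b (b c_{n-1}) + log_b c_N`, the sum being over the `n ≤ N` with `r n ≠ 0`. The sum of
the `c_n`, `n ≤ N`, is `O(P(α))` with `α_i = |A_i ∩ [0, N]| + 1`, and the concavity of the
logarithm gives the theorem.
-/

namespace Pool.Agent.Results.MP_7e9a3a_nt.NumberAndReciprocal

open Finset Pool.Agent.Q39.SS

/-- the positions `0, …, N` of the nonzero digits of `x` in base `b` -/
noncomputable def positions (b : ℕ) (x : ℝ) (N : ℕ) : Finset ℕ :=
  {k ∈ range (N + 1) | digit b x k ≠ 0}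

open Classical in
/-- the numbers `1, …, N` which are the sum of the position of a nonzero digit of `x` and the
position of a nonzero digit of `y` -/
noncomputable def sumset (b : ℕ) (x y : ℝ) (N : ℕ) : Finset ℕ :=
  {n ∈ Icc 1 N | ∃ i j, digit b x i ≠ 0 ∧ digit b y j ≠ 0 ∧ i + j = n}

open Classical in
/-- the numbers `1, …, N` which are, for some monomial `X_1 ^ d_1 ⋯ X_s ^ d_s` of `P`, a sum of
`d_1` positions of nonzero digits of `x_1`, …, and `d_s` positions of nonzero digits of `x_s` -/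
noncomputable def sumsetOf (b : ℕ) {s : ℕ} (x : Fin s → ℝ) (P : MvPolynomial (Fin s) ℕ) (N : ℕ) :
    Finset ℕ :=
  {n ∈ Icc 1 N | ∃ d ∈ P.support, ∃ κ : Fin s → ℕ,
    (∀ i, κ i ∈ sums (d i) (pos b (x i))) ∧ ∑ i, κ i = n}

lemma cnt_eq (b : ℕ) (x : ℝ) (N : ℕ) : cnt (digit b x) N = #(positions b x N) := by
  unfold cnt positions
  congr 1

/-- part 3 -/
lemma part_three {b : ℕ} (hb : 2 ≤ b) {s : ℕ} {x : Fin s → ℝ} (hx : ∀ i, 0 < x i)
    (P : MvPolynomial (Fin s) ℕ) (D : ℕ) (heq : MvPolynomial.aeval x P = (D : ℝ))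
    (hm : ∃ d ∈ P.support, ∃ i, d i ≠ 0 ∧ Irrational (x i)) {ε : ℝ} (hε : 0 < ε) (hε1 : ε < 1) :
    ∃ C : ℝ, ∀ N : ℕ, 1 ≤ N →
      0 < Real.logb b (MvPolynomial.aeval (fun i => (#(positions b (x i) N) : ℝ) + 1) P / N) + C ∧
      (1 - ε) * N ≤ ((#(sumsetOf b x P N) : ℝ) + 1) *
        (Real.logb b (MvPolynomial.aeval (fun i => (#(positions b (x i) N) : ℝ) + 1) P / N)
          + C) := by
  classical
  obtain ⟨C, hC⟩ := main_several hb hx P D heq hm hε hε1
  refine ⟨C, fun N hN => ?_⟩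
  have h1 := hC N hN (sumsetOf b x P N) (by
    intro n hn1 hn2 hn3
    rw [sumsetOf, mem_filter, mem_Icc]
    exact ⟨⟨hn1, hn2⟩, hn3⟩)
  simpa only [cnt_eq] using h1

lemma sums_one {A : Set ℕ} {k : ℕ} (h : k ∈ sums 1 A) : k ∈ A := by
  obtain ⟨t, ht, hs⟩ := h
  rw [Fin.sum_univ_one] at hs
  rw [← hs]
  exact ht 0

/-- part 1 -/
lemma part_one {b : ℕ} (hb : 2 ≤ b) {x : ℝ} (hx : 0 < x) (hirr : Irrational x) {D : ℕ}
    (hD : 1 ≤ D) {ε : ℝ} (hε : 0 < ε) (hε1 : ε < 1) :
    ∃ C : ℝ, ∀ N : ℕ, 1 ≤ N →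
      0 < Real.logb b (((#(positions b x N) : ℝ) + 1) * (#(positions b (D / x) N) + 1) / N) + C ∧
      (1 - ε) * N ≤ ((#(sumset b x (D / x) N) : ℝ) + 1) *
        (Real.logb b (((#(positions b x N) : ℝ) + 1) * (#(positions b (D / x) N) + 1) / N)
          + C) := by
  classical
  have hDp : (0 : ℝ) < D := by exact_mod_cast hD
  set y : Fin 2 → ℝ := ![x, D / x] with hy
  set P : MvPolynomial (Fin 2) ℕ := MvPolynomial.X 0 * MvPolynomial.X 1 with hP
  have hPm : P = MvPolynomial.monomial (Finsupp.single 0 1 + Finsupp.single 1 1) 1 := by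
    rw [hP, MvPolynomial.X, MvPolynomial.X, MvPolynomial.monomial_mul, one_mul]
  have hsupp : P.support = {Finsupp.single 0 1 + Finsupp.single 1 1} := by
    rw [hPm, MvPolynomial.support_monomial, if_neg one_ne_zero]
  have hev : ∀ z : Fin 2 → ℝ, MvPolynomial.aeval z P = z 0 * z 1 := by
    intro z
    rw [hP, map_mul, MvPolynomial.aeval_X, MvPolynomial.aeval_X]
  obtain ⟨C, hC⟩ := part_three hb (x := y) (by
      intro i
      fin_cases i
      · exact hx
      · exact div_pos hDp hx) P D (by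
      rw [hev]
      simp only [hy, Matrix.cons_val_zero, Matrix.cons_val_one]
      field_simp) ⟨_, by rw [hsupp]; exact mem_singleton_self _, 0, by simp, hirr⟩ hε hε1
  refine ⟨C, fun N hN => ?_⟩
  obtain ⟨h1, h2⟩ := hC N hN
  rw [hev] at h1 h2
  simp only [hy, Matrix.cons_val_zero, Matrix.cons_val_one] at h1 h2
  refine ⟨h1, h2.trans (mul_le_mul_of_nonneg_right ?_ h1.le)⟩
  have h3 : sumsetOf b ![x, D / x] P N ⊆ sumset b x (D / x) N := by
    intro n hn
    rw [sumsetOf, mem_filter] at hn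
    obtain ⟨hn, d, hd, κ, hκ, hs⟩ := hn
    rw [hsupp, mem_singleton] at hd
    subst hd
    rw [sumset, mem_filter]
    have h4 := hκ 0
    have h5 := hκ 1
    simp only [Finsupp.coe_add, Pi.add_apply] at h4 h5
    rw [show (Finsupp.single (0 : Fin 2) 1) 0 + (Finsupp.single (1 : Fin 2) 1) 0 = 1 by simp] at h4
    rw [show (Finsupp.single (0 : Fin 2) 1) 1 + (Finsupp.single (1 : Fin 2) 1) 1 = 1 by simp] at h5
    refine ⟨hn, κ 0, κ 1, sums_one h4, sums_one h5, ?_⟩
    rw [← hs, Fin.sum_univ_two]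
  have h6 : (#(sumsetOf b ![x, D / x] P N) : ℝ) ≤ #(sumset b x (D / x) N) := by
    exact_mod_cast card_le_card h3
  linarith

open scoped Pointwise in
/-- the covering of the sumset -/
lemma cover (b : ℕ) (x y : ℝ) (N : ℕ) (F G : Finset ℕ) :
    #(sumset b x y N) ≤ #(F + G) + #(positions b x N \ F) * #(positions b y N) +
      #(positions b x N) * #(positions b y N \ G) := by
  classical
  have h1 : sumset b x y N ⊆ (F + G) ∪ ((positions b x N \ F) + positions b y N) ∪
      (positions b x N + (positions b y N \ G)) := by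
    intro n hn
    rw [sumset, mem_filter, mem_Icc] at hn
    obtain ⟨hn, i, j, hi, hj, hij⟩ := hn
    have hi' : i ∈ positions b x N := by rw [positions, mem_filter, mem_range]; exact ⟨by omega, hi⟩
    have hj' : j ∈ positions b y N := by rw [positions, mem_filter, mem_range]; exact ⟨by omega, hj⟩
    rw [mem_union, mem_union, mem_add, mem_add, mem_add]
    by_cases h2 : i ∈ F
    · by_cases h3 : j ∈ G
      · exact Or.inl (Or.inl ⟨i, h2, j, h3, hij⟩)
      · exact Or.inr ⟨i, hi', j, mem_sdiff.2 ⟨hj', h3⟩, hij⟩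
    · exact Or.inl (Or.inr ⟨i, mem_sdiff.2 ⟨hi', h2⟩, j, hj', hij⟩)
  calc #(sumset b x y N) ≤ _ := card_le_card h1
    _ ≤ #((F + G) ∪ ((positions b x N \ F) + positions b y N)) +
        #(positions b x N + (positions b y N \ G)) := card_union_le _ _
    _ ≤ (#(F + G) + #((positions b x N \ F) + positions b y N)) +
        #(positions b x N + (positions b y N \ G)) := Nat.add_le_add_right (card_union_le _ _) _
    _ ≤ _ := Nat.add_le_add (Nat.add_le_add_left card_add_le _) card_add_le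

lemma positions_le (b : ℕ) (x : ℝ) (N : ℕ) (F : Finset ℕ) :
    #(positions b x N) ≤ #F + #(positions b x N \ F) := by
  classical
  calc #(positions b x N) ≤ #(F ∪ (positions b x N \ F)) := card_le_card (by
        intro k hk
        rw [mem_union, mem_sdiff]
        tauto)
    _ ≤ _ := card_union_le _ _

lemma positions_le' (b : ℕ) (x : ℝ) (N : ℕ) : #(positions b x N) ≤ N + 1 := by
  calc #(positions b x N) ≤ #(range (N + 1)) := card_le_card (filter_subset _ _)
    _ = N + 1 := card_range _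

open scoped Pointwise in
/-- part 2 -/
lemma part_two {b : ℕ} (hb : 2 ≤ b) {x : ℝ} (hx : 0 < x) (hirr : Irrational x) {D : ℕ}
    (hD : 1 ≤ D) {K δ : ℝ} (hK : 0 < K) (hδ : 0 < δ) :
    ∃ c : ℝ, 0 < c ∧ ∃ N₀ : ℕ, ∀ N : ℕ, N₀ ≤ N → ∀ F G : Finset ℕ,
      (#F : ℝ) ≤ K * (N : ℝ) ^ (1 - δ) → (#G : ℝ) ≤ K * (N : ℝ) ^ (1 - δ) →
      (#(F + G) : ℝ) ≤ K * (N : ℝ) ^ (1 - δ) →
      c * (N : ℝ) ^ (min δ (1 / 2)) / Real.log N ≤
        #(positions b x N \ F) + #(positions b (D / x) N \ G) := by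
  classical
  obtain ⟨C, hC⟩ := part_one hb hx hirr hD (ε := 1 / 2) (by norm_num) (by norm_num)
  have hb2 : (2 : ℝ) ≤ b := by exact_mod_cast hb
  have hlb : 0 < Real.log b := Real.log_pos (by linarith)
  set C₂ : ℝ := 1 / Real.log b + |Real.log 9 / Real.log b + C| + 1 with hC₂
  have hC₂p : 0 < C₂ := by positivity
  set c : ℝ := min 1 (1 / (8 * C₂ * (K + 1))) with hc
  have hcp : 0 < c := lt_min one_pos (by positivity)
  have hc2 : c ^ 2 + K * c ≤ 1 / (8 * C₂) := by
    have h1 : c ≤ 1 / (8 * C₂ * (K + 1)) := min_le_right _ _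
    have hc1 : c ≤ 1 := min_le_left _ _
    have h2 : c * (K + 1) ≤ 1 / (8 * C₂) := by
      calc c * (K + 1) ≤ 1 / (8 * C₂ * (K + 1)) * (K + 1) :=
            mul_le_mul_of_nonneg_right h1 (by linarith)
        _ = 1 / (8 * C₂) := by field_simp
    nlinarith
  have hev : ∀ θ : ℝ, 0 < θ → ∀ κ : ℝ, 0 < κ →
      ∀ᶠ N : ℕ in Filter.atTop, Real.log N ≤ κ * (N : ℝ) ^ θ := by
    intro θ hθ κ hκ
    have h1 := (isLittleO_log_rpow_atTop hθ).bound hκ
    have h2 := (tendsto_natCast_atTop_atTop (R := ℝ)).eventually h1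
    filter_upwards [h2, Filter.eventually_ge_atTop 1] with N h3 h4
    have h5 : (1 : ℝ) ≤ N := by exact_mod_cast h4
    rw [Real.norm_of_nonneg (Real.log_nonneg h5), Real.norm_of_nonneg (by positivity)] at h3
    exact h3
  obtain ⟨N₁, hN₁⟩ := Filter.eventually_atTop.1 ((hev δ hδ (1 / (8 * C₂ * K)) (by positivity)).and
    (hev 1 one_pos (1 / (8 * C₂)) (by positivity)))
  refine ⟨c, hcp, max N₁ 3, fun N hN F G hF hG hFG => ?_⟩
  have hN3 : 3 ≤ N := (le_max_right _ _).trans hN
  have hN3' : (3 : ℝ) ≤ N := by exact_mod_cast hN3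
  have hNp : (0 : ℝ) < N := by linarith
  obtain ⟨hlog, hlog1⟩ := hN₁ N ((le_max_left _ _).trans hN)
  rw [Real.rpow_one] at hlog1
  have hL1 : 1 ≤ Real.log N := by
    rw [Real.le_log_iff_exp_le hNp]
    linarith [Real.exp_one_lt_d9]
  set L : ℝ := Real.log N with hL
  obtain ⟨hW, hS⟩ := hC N (by omega)
  set p : ℝ := (#(positions b x N) : ℝ) with hp
  set p' : ℝ := (#(positions b (D / x) N) : ℝ) with hp'
  have hp0 : 0 ≤ p := by positivity
  have hp'0 : 0 ≤ p' := by positivity
  have hpN : p + 1 ≤ 3 * N := by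
    have : p ≤ N + 1 := by rw [hp]; exact_mod_cast positions_le' b x N
    linarith
  have hpN' : p' + 1 ≤ 3 * N := by
    have : p' ≤ N + 1 := by rw [hp']; exact_mod_cast positions_le' b (D / x) N
    linarith
  have hW2 : Real.logb b ((p + 1) * (p' + 1) / N) + C ≤ C₂ * L := by
    have h1 : Real.logb b ((p + 1) * (p' + 1) / N) ≤ Real.logb b (9 * N) := by
      refine Real.logb_le_logb_of_le (by linarith) (by positivity) ?_
      rw [div_le_iff₀ hNp]
      calc (p + 1) * (p' + 1) ≤ (3 * N) * (3 * N) :=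
            mul_le_mul hpN hpN' (by linarith) (by linarith)
        _ = 9 * N * N := by ring
    have h2 : Real.logb b (9 * N) = Real.log 9 / Real.log b + L / Real.log b := by
      rw [Real.logb, Real.log_mul (by norm_num) hNp.ne', add_div]
    have h3 : Real.log 9 / Real.log b + C ≤ |Real.log 9 / Real.log b + C| := le_abs_self _
    have h4 : |Real.log 9 / Real.log b + C| ≤ |Real.log 9 / Real.log b + C| * L :=
      le_mul_of_one_le_right (abs_nonneg _) hL1
    calc Real.logb b ((p + 1) * (p' + 1) / N) + C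
        ≤ (Real.log 9 / Real.log b + L / Real.log b) + C := by rw [← h2]; linarith
      _ = L / Real.log b + (Real.log 9 / Real.log b + C) := by ring
      _ ≤ L / Real.log b + |Real.log 9 / Real.log b + C| * L := by linarith
      _ ≤ C₂ * L := by
          rw [hC₂]
          have : L / Real.log b = 1 / Real.log b * L := by ring
          rw [this]
          nlinarith
  have hS2 : (N : ℝ) / 2 ≤ ((#(sumset b x (D / x) N) : ℝ) + 1) * (C₂ * L) := by
    refine le_trans ?_ (hS.trans (mul_le_mul_of_nonneg_left hW2 (by positivity)))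
    linarith
  by_contra hneg
  push Not at hneg
  set e₁ : ℝ := (#(positions b x N \ F) : ℝ) with he₁
  set e₂ : ℝ := (#(positions b (D / x) N \ G) : ℝ) with he₂
  set e : ℝ := e₁ + e₂ with he
  set f : ℝ := K * (N : ℝ) ^ (1 - δ) with hf
  have he10 : 0 ≤ e₁ := by positivity
  have he20 : 0 ≤ e₂ := by positivity
  have he0 : 0 ≤ e := by positivity
  have hf0 : 0 ≤ f := by positivity
  have hpe : p ≤ f + e := by
    have h1 : p ≤ #F + e₁ := by rw [hp, he₁]; exact_mod_cast positions_le b x N F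
    linarith
  have hpe' : p' ≤ f + e := by
    have h1 : p' ≤ #G + e₂ := by rw [hp', he₂]; exact_mod_cast positions_le b (D / x) N G
    linarith
  have hcov : (#(sumset b x (D / x) N) : ℝ) ≤ f + e * (f + e) := by
    have h1 : (#(sumset b x (D / x) N) : ℝ) ≤ #(F + G) + e₁ * p' + p * e₂ := by
      rw [he₁, he₂, hp, hp']
      exact_mod_cast cover b x (D / x) N F G
    have h2 : e₁ * p' ≤ e₁ * (f + e) := mul_le_mul_of_nonneg_left hpe' he10
    have h3 : p * e₂ ≤ (f + e) * e₂ := mul_le_mul_of_nonneg_right hpe he20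
    calc (#(sumset b x (D / x) N) : ℝ) ≤ f + e₁ * (f + e) + (f + e) * e₂ := by linarith
      _ = f + e * (f + e) := by rw [he]; ring
  have hf1 : f * L ≤ N / (8 * C₂) := by
    calc f * L ≤ f * (1 / (8 * C₂ * K) * (N : ℝ) ^ δ) := mul_le_mul_of_nonneg_left hlog hf0
      _ = ((N : ℝ) ^ (1 - δ) * (N : ℝ) ^ δ) / (8 * C₂) := by rw [hf]; field_simp
      _ = N / (8 * C₂) := by
          rw [← Real.rpow_add hNp]
          norm_num
  have heL : e * L ≤ c * (N : ℝ) ^ (min δ (1 / 2)) := by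
    have := hneg.le
    rw [le_div_iff₀ (by linarith)] at this
    exact this
  have hef : e * f * L ≤ c * K * N := by
    calc e * f * L = (e * L) * f := by ring
      _ ≤ (c * (N : ℝ) ^ (min δ (1 / 2))) * (K * (N : ℝ) ^ (1 - δ)) :=
          mul_le_mul_of_nonneg_right heL hf0
      _ = c * K * ((N : ℝ) ^ (min δ (1 / 2)) * (N : ℝ) ^ (1 - δ)) := by ring
      _ ≤ c * K * N := by
          refine mul_le_mul_of_nonneg_left ?_ (by positivity)
          rw [← Real.rpow_add hNp]
          calc (N : ℝ) ^ (min δ (1 / 2) + (1 - δ)) ≤ (N : ℝ) ^ (1 : ℝ) := by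
                refine Real.rpow_le_rpow_of_exponent_le (by linarith) ?_
                linarith [min_le_left δ (1 / 2)]
            _ = N := Real.rpow_one _
  have hee : e * e * L ≤ c ^ 2 * N := by
    have h2 : e ≤ c * (N : ℝ) ^ (min δ (1 / 2)) :=
      le_trans (le_mul_of_one_le_right he0 hL1) heL
    calc e * e * L = e * (e * L) := by ring
      _ ≤ (c * (N : ℝ) ^ (min δ (1 / 2))) * (c * (N : ℝ) ^ (min δ (1 / 2))) :=
          mul_le_mul h2 heL (by positivity) (by positivity)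
      _ = c ^ 2 * ((N : ℝ) ^ (min δ (1 / 2)) * (N : ℝ) ^ (min δ (1 / 2))) := by ring
      _ ≤ c ^ 2 * N := by
          refine mul_le_mul_of_nonneg_left ?_ (by positivity)
          rw [← Real.rpow_add hNp]
          calc (N : ℝ) ^ (min δ (1 / 2) + min δ (1 / 2)) ≤ (N : ℝ) ^ (1 : ℝ) := by
                refine Real.rpow_le_rpow_of_exponent_le (by linarith) ?_
                linarith [min_le_right δ (1 / 2)]
            _ = N := Real.rpow_one _
  have h9 : ((#(sumset b x (D / x) N) : ℝ) + 1) * L ≤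
      N / (8 * C₂) + (c ^ 2 + K * c) * N + 1 / (8 * C₂) * N := by
    calc ((#(sumset b x (D / x) N) : ℝ) + 1) * L ≤ (f + e * (f + e) + 1) * L :=
          mul_le_mul_of_nonneg_right (by linarith) (by linarith)
      _ = f * L + e * f * L + e * e * L + L := by ring
      _ ≤ N / (8 * C₂) + c * K * N + c ^ 2 * N + 1 / (8 * C₂) * N := by linarith
      _ = _ := by ring
  have h10 : (c ^ 2 + K * c) * N ≤ 1 / (8 * C₂) * N := mul_le_mul_of_nonneg_right hc2 hNp.le
  have h11 : (N : ℝ) / 2 ≤ C₂ * (N / (8 * C₂) + 1 / (8 * C₂) * N + 1 / (8 * C₂) * N) := by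
    calc (N : ℝ) / 2 ≤ ((#(sumset b x (D / x) N) : ℝ) + 1) * (C₂ * L) := hS2
      _ = C₂ * (((#(sumset b x (D / x) N) : ℝ) + 1) * L) := by ring
      _ ≤ _ := mul_le_mul_of_nonneg_left (by linarith) hC₂p.le
  have h12 : C₂ * (N / (8 * C₂) + 1 / (8 * C₂) * N + 1 / (8 * C₂) * N) = 3 * N / 8 := by
    field_simp; ring
  rw [h12] at h11
  linarith

open scoped Pointwise in
/-- The result; parts 1 and 2 hold for instance for `x = π` and for `x = e`, `D = 1`. -/
theorem result :
    -- 1. the sumset of the positions of the nonzero digits of `x` and of `D / x`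
    (∀ b : ℕ, 2 ≤ b → ∀ x : ℝ, 0 < x → Irrational x → ∀ D : ℕ, 1 ≤ D →
      ∀ ε : ℝ, 0 < ε → ε < 1 → ∃ C : ℝ, ∀ N : ℕ, 1 ≤ N →
      0 < Real.logb b (((#(positions b x N) : ℝ) + 1) * (#(positions b (D / x) N) + 1) / N) + C ∧
      (1 - ε) * N ≤ ((#(sumset b x (D / x) N) : ℝ) + 1) *
        (Real.logb b (((#(positions b x N) : ℝ) + 1) * (#(positions b (D / x) N) + 1) / N)
          + C)) ∧
    -- 2. many positions are outside sets with a small sumset
    (∀ b : ℕ, 2 ≤ b → ∀ x : ℝ, 0 < x → Irrational x → ∀ D : ℕ, 1 ≤ D →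
      ∀ K δ : ℝ, 0 < K → 0 < δ → δ ≤ 1 → ∃ c : ℝ, 0 < c ∧ ∃ N₀ : ℕ, ∀ N : ℕ, N₀ ≤ N →
      ∀ F G : Finset ℕ, (#F : ℝ) ≤ K * (N : ℝ) ^ (1 - δ) → (#G : ℝ) ≤ K * (N : ℝ) ^ (1 - δ) →
        (#(F + G) : ℝ) ≤ K * (N : ℝ) ^ (1 - δ) →
        c * (N : ℝ) ^ (min δ (1 / 2)) / Real.log N ≤
          #(positions b x N \ F) + #(positions b (D / x) N \ G)) ∧
    -- 3. several numbers with a polynomial identity
    (∀ b : ℕ, 2 ≤ b → ∀ (s : ℕ) (x : Fin s → ℝ), (∀ i, 0 < x i) →
      ∀ (P : MvPolynomial (Fin s) ℕ) (D : ℕ), MvPolynomial.aeval x P = (D : ℝ) →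
      (∃ d ∈ P.support, ∃ i, d i ≠ 0 ∧ Irrational (x i)) →
      ∀ ε : ℝ, 0 < ε → ε < 1 → ∃ C : ℝ, ∀ N : ℕ, 1 ≤ N →
      0 < Real.logb b (MvPolynomial.aeval (fun i => (#(positions b (x i) N) : ℝ) + 1) P / N) + C ∧
      (1 - ε) * N ≤ ((#(sumsetOf b x P N) : ℝ) + 1) *
        (Real.logb b (MvPolynomial.aeval (fun i => (#(positions b (x i) N) : ℝ) + 1) P / N)
          + C)) := by
  refine ⟨?_, ?_, ?_⟩
  · intro b hb x hx hirr D hD ε h1 h2
    exact part_one hb hx hirr hD h1 h2
  · intro b hb x hx hirr D hD K δ hK hδ _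
    exact part_two hb hx hirr hD hK hδ
  · intro b hb s x hx P D heq hm ε h1 h2
    exact part_three hb hx P D heq hm h1 h2

end Pool.Agent.Results.MP_7e9a3a_nt.NumberAndReciprocal
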