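import Mathlib
import Pool.Agent.TH461.AL.Dec2
import Pool.Agent.H847R3.SuppF
import Pool.Agent.W47.LC.Ln2

/-!
# Words in the base `u v` expansions of `u ^ n x`, `x = e, π, √2, ln 2, …`, for almost all `n`

The base is `b = u v` with `u, v ≥ 2` coprime, for instance `b = 10`, `u = 2`, `v = 5`: for almost
all `n < M` (all but `δ M`) every word of `k` decimal digits occurs at least `M ^ (1 - ε)` times
among the first `C M` decimal digits of `2 ^ n π` behind the point.  The multiplier and the base
are not coprime here, so the result is not contained in `WordsAlmostAllMultiples` (base and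
multiplier coprime).
-/

set_option autoImplicit false

open Filter Topology

namespace Pool.Agent.Results.MP_7e9a3a_nt.WordsPowersDividingBase

open Classical in
/-- Let `u, v ≥ 2` be coprime (for instance `u = 2`, `v = 5` or `u = 5`, `v = 2`) and `b = u v`, and
let `x` be `e`, `π`, `√2`, `ln 2`, or any irrational number which is not a Liouville number.  There
is a number `C` such that for all `k`, `ε, δ > 0` and all large `M`, for all but at most `δ M` of
the `n < M`: every word of `k` base `b` digits (the word with value `W < b ^ k`, with leading zeros)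
occurs in the base `b` expansion of `u ^ n x` right after the `i`-th digit behind the point for at
least `M ^ (1 - ε)` numbers `i < C M`. -/
theorem result (u v : ℕ) (hu : 2 ≤ u) (hv : 2 ≤ v) (hco : Nat.Coprime u v) (x : ℝ)
    (hx : x = Real.exp 1 ∨ x = Real.pi ∨ x = √2 ∨ x = Real.log 2 ∨
      (Irrational x ∧ ¬ Liouville x)) :
    ∃ C : ℕ, ∀ (k : ℕ) (ε δ : ℝ), 0 < ε → 0 < δ → ∃ M0 : ℕ, ∀ M : ℕ, M0 ≤ M →
      (((Finset.range M).filter (fun n : ℕ => ¬ ∀ W < (u * v) ^ k, (M : ℝ) ^ (1 - ε) ≤
        (((Finset.range (C * M)).filter (fun i : ℕ =>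
          ⌊((u * v : ℕ) : ℝ) ^ (i + k) * ((u : ℝ) ^ n * x)⌋ % (((u * v : ℕ) : ℤ) ^ k) =
            (W : ℤ))).card : ℝ))).card : ℝ) ≤ δ * M := by
  have hgood : Irrational x ∧ ¬ Liouville x := by
    rcases hx with rfl | rfl | rfl | rfl | h
    · exact Pool.Agent.H847R3.XpXq.e_good
    · exact Pool.Agent.H847R3.XpXq.pi_good
    · exact Pool.Agent.H847R3.XpXq.sqrt_two_good
    · obtain ⟨Q0, hQ0⟩ := eventually_atTop.1 (Pool.Agent.W47.LC.ln2_eventually.and
        (eventually_ge_atTop 1))
      have h : ∀ Q : ℕ, Q0 ≤ Q → ∀ P : ℤ, (Q : ℝ) ^ (-(3.211 : ℝ)) ≤ |Q * Real.log 2 - P| := by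
        intro Q hQ P
        obtain ⟨h3, h4⟩ := hQ0 Q hQ
        have hQ1 : (0 : ℝ) < Q := by exact_mod_cast h4
        rw [Real.rpow_def_of_pos hQ1]
        have e : Real.log Q * -(3.211 : ℝ) = -(3.211 * Real.log Q) := by ring
        rw [e]
        exact h3 P
      exact ⟨Pool.Agent.H847R3.XpXq.irrational_of_dio Q0 h,
        Pool.Agent.H847R3.XpXq.not_liouville_of_dio Q0 h⟩
    · exact h
  exact Pool.Agent.TH461.AL.Dec2.real_words hu hv hco hgood.1 hgood.2

end Pool.Agent.Results.MP_7e9a3a_nt.WordsPowersDividingBase
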